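import Mathlib
import Pool.Agent.Y251.CL.Stm

/-!
Near a recurrent non-periodic point there are uncountably many recurrent points (proof by
helper87, project CL of helper251).
-/

set_option autoImplicit false

open Set Filter Topology Function TopologicalSpace

namespace Pool.Agent.Y87.CL

/-- returns at arbitrarily large times -/
lemma late {X : Type*} [TopologicalSpace X] [T2Space X] (g : X → X) (x : X)
    (hrec : ∀ W ∈ 𝓝 x, ∃ k : ℕ, 1 ≤ k ∧ g^[k] x ∈ W) (hnp : ∀ k : ℕ, 1 ≤ k → g^[k] x ≠ x)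
    (K : ℕ) (W : Set X) (hW : W ∈ 𝓝 x) : ∃ k : ℕ, K < k ∧ g^[k] x ∈ W := by
  have hfin : ((fun k : ℕ => g^[k] x) '' (Set.Icc 1 K)).Finite := (Set.finite_Icc 1 K).image _
  have hx : x ∉ (fun k : ℕ => g^[k] x) '' (Set.Icc 1 K) := by
    rintro ⟨k, hk, hkx⟩
    exact hnp k hk.1 hkx
  have hW' : W ∩ ((fun k : ℕ => g^[k] x) '' (Set.Icc 1 K))ᶜ ∈ 𝓝 x :=
    inter_mem hW (hfin.isClosed.isOpen_compl.mem_nhds hx)
  obtain ⟨k, hk1, hk2, hk3⟩ := hrec _ hW'
  refine ⟨k, ?_, hk2⟩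
  by_contra h
  exact hk3 ⟨k, ⟨hk1, not_lt.mp h⟩, rfl⟩

theorem unc.{u} : Pool.Agent.Y251.CL.S_UNC.{u} := by
  intro X _ _ _ _ f x N hrec hnp hN hC
  set g : X → X := (f : X → X) with hg
  have hgc : Continuous g := f.continuous
  have hgi : Injective g := f.injective
  set O : Set X := range (fun k : ℕ => g^[k] x) with hO
  set Z : Set X := closure O with hZ
  have hOZ : ∀ k : ℕ, g^[k] x ∈ Z := fun k => subset_closure ⟨k, rfl⟩
  -- open sets which meet `Z` meet the orbit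
  have hmeet : ∀ B : Set X, IsOpen B → (B ∩ Z).Nonempty → ∃ j : ℕ, g^[j] x ∈ B := by
    rintro B hB ⟨z, hzB, hzZ⟩
    obtain ⟨y, hyB, j, hj⟩ := mem_closure_iff.mp hzZ B hB hzB
    exact ⟨j, by simpa [hj] using hyB⟩
  have hret : ∀ B : Set X, IsOpen B → (B ∩ Z).Nonempty → ∀ k : ℕ, ∃ m : ℕ, 1 ≤ m ∧
      g^[m] (g^[k] x) ∈ B := by
    intro B hB hBZ k
    obtain ⟨j, hj⟩ := hmeet B hB hBZ
    have hW : (g^[j]) ⁻¹' B ∈ 𝓝 x := (hB.preimage (hgc.iterate j)).mem_nhds hj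
    obtain ⟨k', hk', hk''⟩ := late g x hrec hnp k _ hW
    refine ⟨j + k' - k, by omega, ?_⟩
    rw [← iterate_add_apply]
    have e1 : j + k' - k + k = j + k' := by omega
    rw [e1, iterate_add_apply]
    exact hk''
  -- the Baire space `Z`
  have : LocallyCompactSpace Z := (isClosed_closure.isClosedEmbedding_subtypeVal).locallyCompactSpace
  have : BaireSpace Z := inferInstance
  -- first family
  set J : Set (Set X) := {B ∈ countableBasis X | (B ∩ Z).Nonempty} with hJ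
  have hJc : J.Countable := (countable_countableBasis X).mono fun B hB => hB.1
  let U : Set X → Set Z := fun B => {y : Z | ∃ m : ℕ, 1 ≤ m ∧ g^[m] y.1 ∈ B}
  have hUo : ∀ B : Set X, IsOpen B → IsOpen (U B) := by
    intro B hB
    have : U B = ⋃ m : ℕ, ⋃ _ : 1 ≤ m, (fun y : Z => g^[m] y.1) ⁻¹' B := by
      ext y
      simp only [U, mem_ofPred_eq, mem_iUnion, mem_preimage, exists_prop]
    rw [this]
    refine isOpen_iUnion fun m => isOpen_iUnion fun _ => ?_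
    exact hB.preimage ((hgc.iterate m).comp continuous_subtype_val)
  have hUd : ∀ B ∈ J, Dense (U B) := by
    intro B hB z
    rw [mem_closure_iff]
    intro o ho hzo
    obtain ⟨o', ho', rfl⟩ := isOpen_induced_iff.mp ho
    obtain ⟨k, hk⟩ := hmeet o' ho' ⟨z.1, hzo, z.2⟩
    obtain ⟨m, hm, hm'⟩ := hret B (isOpen_of_mem_countableBasis hB.1) hB.2 k
    exact ⟨⟨g^[k] x, hOZ k⟩, hk, m, hm, hm'⟩
  have h1 : (⋂ B ∈ J, U B) ∈ residual Z :=
    (countable_bInter_mem hJc).2 fun B hB =>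
      residual_of_dense_open (hUo B (isOpen_of_mem_countableBasis hB.1)) (hUd B hB)
  -- second family
  let V : X → Set Z := fun y => {z : Z | z.1 ≠ y}
  have hVo : ∀ y, IsOpen (V y) := fun y =>
    isOpen_compl_singleton.preimage continuous_subtype_val
  have hVd : ∀ y, Dense (V y) := by
    intro y z
    rw [mem_closure_iff]
    intro o ho hzo
    obtain ⟨o', ho', rfl⟩ := isOpen_induced_iff.mp ho
    obtain ⟨k, hk⟩ := hmeet o' ho' ⟨z.1, hzo, z.2⟩
    by_cases hy : g^[k] x = y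
    · obtain ⟨m, hm, hm'⟩ := hret o' ho' ⟨z.1, hzo, z.2⟩ k
      refine ⟨⟨g^[m] (g^[k] x), ?_⟩, hm', ?_⟩
      · rw [← iterate_add_apply]
        exact hOZ _
      · change g^[m] (g^[k] x) ≠ y
        rw [← hy]
        intro h
        apply hnp m hm
        have h2 : g^[k] (g^[m] x) = g^[k] x := by
          rw [← iterate_add_apply, add_comm, iterate_add_apply]
          exact h
        exact hgi.iterate k h2
    · exact ⟨⟨g^[k] x, hOZ k⟩, hk, hy⟩
  have h2 : (⋂ y ∈ {y | y ∈ N ∧ ∀ W ∈ 𝓝 y, ∃ k : ℕ, 1 ≤ k ∧ g^[k] y ∈ W}, V y) ∈ residual Z :=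
    (countable_bInter_mem hC).2 fun y _ => residual_of_dense_open (hVo y) (hVd y)
  have h3 := dense_of_mem_residual (inter_mem h1 h2)
  have hx0 : x ∈ interior N := mem_interior_iff_mem_nhds.mpr hN
  obtain ⟨z, hzN, hz1, hz2⟩ := h3.inter_open_nonempty ((Subtype.val : Z → X) ⁻¹' interior N)
    (isOpen_interior.preimage continuous_subtype_val) ⟨⟨x, hOZ 0⟩, hx0⟩
  have hzC : z.1 ∈ {y | y ∈ N ∧ ∀ W ∈ 𝓝 y, ∃ k : ℕ, 1 ≤ k ∧ g^[k] y ∈ W} := by
    refine ⟨interior_subset hzN, fun W hW => ?_⟩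
    obtain ⟨B, hB, hzB, hBW⟩ := (isBasis_countableBasis X).mem_nhds_iff.mp hW
    have hBJ : B ∈ J := ⟨hB, z.1, hzB, z.2⟩
    obtain ⟨m, hm, hm'⟩ := mem_iInter₂.mp hz1 B hBJ
    exact ⟨m, hm, hBW hm'⟩
  exact (mem_iInter₂.mp hz2 z.1 hzC) rfl

end Pool.Agent.Y87.CL
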